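import Pool.Agent.N563.LSP.OneP
import Pool.Agent.N563.LSP.Fin
import Pool.Agent.TH400.LS_E4
import Pool.Agent.TH496.LS_MOD
import Pool.Agent.TH889.LS_W
import Pool.Agent.TH889.LS_DUAL
import Pool.Agent.TH73.LS_LS4
import Pool.Agent.TH312.LS_ONE
import Pool.Agent.TH902.LS_T2
import Pool.Agent.TH209.LS_TP
import Pool.Agent.TH89.LS_F
import Pool.Agent.TH807.LS_CL
import Pool.Agent.N7.LSP.CONV
import Pool.Agent.N907.LSP.PTS
import Pool.Agent.N499.LSP.SUPB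
import Pool.Agent.N286.LSP.L4B
import Pool.Agent.N952.LSP.TPP
import Pool.Agent.N43.LSP.HLP
import Pool.Agent.N574.LSP.E1
import Pool.Agent.N93.LSP.EM
import Pool.Agent.N832.LSP.KER
import Pool.Agent.N34.LSP.MARC
set_option autoImplicit false

/-! # Local smoothing for all exponents, for data with Hardy-Littlewood slices

The estimate of Q1 in every dimension `d = m + 1 ≥ 2` and for ALL exponents `2 ≤ p < ∞`, with
`s_p - σ` replaced by any `s > max (0, 1/2 - 2/p)`, for all data `f` on `ℝ^d` whose restrictions `g`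
to almost all hyperplanes orthogonal to some direction satisfy the Hardy-Littlewood inequality
`∫ ∏ |η_i|^(p-2) |ĝ(η)|^p dη ≤ Λ ∫ |g|^p`, in particular for products of piecewise monotone
functions and for slices whose spectrum is dominated by Hardy averages.
For `p ≥ 2d/(d-1)` and `σ < 1/p` one has `s_p - σ > max (0, 1/2 - 2/p)`. -/

open MeasureTheory Set
open scoped ENNReal FourierTransform RealInnerProductSpace

namespace Pool.Agent.Results.MP_ee74d2_an.AllExponents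

/-- `ℝ^d` -/
abbrev E (d : ℕ) : Type := EuclideanSpace ℝ (Fin d)

/-- The Fourier transform `ĝ(η) = ∫ exp(-2πi y·η) g(y) dy` in `m` variables. -/
noncomputable def hat {m : ℕ} (g : (Fin m → ℝ) → ℂ) (η : Fin m → ℝ) : ℂ :=
  ∫ y : Fin m → ℝ, Complex.exp (((2 * Real.pi * -(∑ i, y i * η i) : ℝ) : ℂ) * Complex.I) * g y

/-- The Hardy-Littlewood inequality `∫ ∏ |η_i|^(p-2) |ĝ(η)|^p dη ≤ Λ ∫ |g(y)|^p dy`. -/
def HardyLittlewood {m : ℕ} (p Λ : ℝ) (g : (Fin m → ℝ) → ℂ) : Prop :=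
  ∫⁻ η : Fin m → ℝ, ENNReal.ofReal ((∏ i, |η i|) ^ (p - 2)) * ‖hat g η‖ₑ ^ p ≤
    ENNReal.ofReal Λ * ∫⁻ y, ‖g y‖ₑ ^ p

/-- The class of data on `ℝ^(m+1)`: for some orthonormal basis `v_0, …, v_m` and for almost every
`x`, the slice `y ↦ f(Σ_{i<m} y_i v_i + x v_m)` has the property `P`. -/
def Slices {m : ℕ} (P : ((Fin m → ℝ) → ℂ) → Prop) (f : E (m + 1) → ℂ) : Prop :=
  ∃ v : OrthonormalBasis (Fin (m + 1)) ℝ (E (m + 1)), ∀ᵐ x : ℝ,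
    P (fun y : Fin m → ℝ => f (∑ i, y i • v i.castSucc + x • v (Fin.last m)))

/-- The line is the union of `k` disjoint intervals on each of which `F` is monotone. -/
def PiecewiseMonotone (k : ℕ) (F : ℝ → ℝ) : Prop :=
  ∃ I : Fin k → Set ℝ, (∀ i, (I i).OrdConnected) ∧ Pairwise (Function.onFun Disjoint I) ∧
    (⋃ i, I i) = Set.univ ∧ ∀ i, MonotoneOn F (I i) ∨ AntitoneOn F (I i)

/-- `g(y) = b ∏ F_i(y_i)` with piecewise monotone functions `F_i` with `k` pieces. -/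
def MonotoneProduct {m : ℕ} (k : ℕ) (g : (Fin m → ℝ) → ℂ) : Prop :=
  ∃ (b : ℂ) (F : Fin m → ℝ → ℝ), (∀ i, PiecewiseMonotone k (F i)) ∧
    ∀ y, g y = b * ∏ i, ((F i (y i) : ℝ) : ℂ)

/-- The Hardy average `∫ |g(y)| ∏_i (1 + |η_i (y_i - c_i)|)^(-a) dy` around the point `c`. -/
noncomputable def avg {m : ℕ} (a : ℝ) (c η : Fin m → ℝ) (g : (Fin m → ℝ) → ℂ) : ℝ :=
  ∫ y : Fin m → ℝ, ‖g y‖ * ∏ i, (1 + |η i * (y i - c i)|) ^ (-a)

/-- The Fourier transform of `g` is dominated by the sum of `N` Hardy averages. -/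
def Dominated {m : ℕ} (N : ℕ) (a Λ : ℝ) (g : (Fin m → ℝ) → ℂ) : Prop :=
  ∃ c : Fin N → Fin m → ℝ, ∀ η : Fin m → ℝ, (∀ i, η i ≠ 0) →
    ‖hat g η‖ ≤ Λ * ∑ j, avg a (c j) η g

/-- The symbol `(1 + 4π²|ζ|²)^(a/2)` of `(I - Δ)^(a/2)`. -/
noncomputable def bessel {d : ℕ} (a : ℝ) (ζ : E d) : ℝ :=
  (1 + 4 * Real.pi ^ 2 * ‖ζ‖ ^ 2) ^ (a / 2)

/-- For `τ = 0`: the solution `u(t, z)` of the wave equation on `ℝ^d` with data
`u(0) = (I - Δ)^(-s/2) f₀`, `∂ₜu(0) = (I - Δ)^((1-s)/2) f₁`, i.e. the inverse Fourier transform of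
`cos(2πt|ζ|) (1+4π²|ζ|²)^(-s/2) f₀^(ζ) + sin(2πt|ζ|)/(2π|ζ|) (1+4π²|ζ|²)^((1-s)/2) f₁^(ζ)`.
For `τ > 0`: the same with the factor `exp(-τ|ζ|²)` (the solution regularised by the heat flow). -/
noncomputable def wave {d : ℕ} (s τ : ℝ) (f₀ f₁ : E d → ℂ) (t : ℝ) (z : E d) : ℂ :=
  ∫ ζ : E d, Complex.exp (((2 * Real.pi * ⟪z, ζ⟫ : ℝ) : ℂ) * Complex.I) *
    (((Real.exp (-(τ * ‖ζ‖ ^ 2)) : ℝ) : ℂ) *
      (((Real.cos (2 * Real.pi * (t * ‖ζ‖)) * bessel (-s) ζ : ℝ) : ℂ) * 𝓕 f₀ ζ +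
       ((Real.sin (2 * Real.pi * (t * ‖ζ‖)) / (2 * Real.pi * ‖ζ‖) * bessel (1 - s) ζ : ℝ) : ℂ) *
        𝓕 f₁ ζ))

/-- The estimate for data in the class `D`: there is a constant `C` such that for all integrable
`f₀, f₁` in `D` and all `0 ≤ τ ≤ 1`, where for `τ = 0` we assume that `(I - Δ)^(-s/2) f₀` and
`(I - Δ)^(-s/2) f₁` have integrable Fourier transforms (this holds for Schwartz functions),
`∫_1^2 ‖u(t)‖_p^p dt ≤ C (‖f₀‖_p^p + ‖f₁‖_p^p)`. -/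
def Estimate {d : ℕ} (s p : ℝ) (D : (E d → ℂ) → Prop) : Prop :=
  ∃ C : ℝ, 0 < C ∧ ∀ f₀ f₁ : E d → ℂ, Integrable f₀ → Integrable f₁ → D f₀ → D f₁ →
    ∀ τ : ℝ, 0 ≤ τ → τ ≤ 1 →
    (0 < τ ∨ (Integrable (fun ζ => ((bessel (-s) ζ : ℝ) : ℂ) * 𝓕 f₀ ζ) ∧
      Integrable (fun ζ => ((bessel (-s) ζ : ℝ) : ℂ) * 𝓕 f₁ ζ))) →
    ∫⁻ t in Icc (1 : ℝ) 2, ∫⁻ z, ‖wave s τ f₀ f₁ t z‖ₑ ^ p ≤
      ENNReal.ofReal C * ((∫⁻ z, ‖f₀ z‖ₑ ^ p) + ∫⁻ z, ‖f₁ z‖ₑ ^ p)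

open Pool.Agent.TH280.LS in
/-- the two propagators -/
theorem steps : S_TP ∧ Pool.Agent.N563.LSP.S_TPP := by
  have hW : S_W := Pool.Agent.TH889.W.w_thm
  have hDUAL : S_DUAL := Pool.Agent.TH889.DUAL.dual_thm Pool.Agent.TH496.MOD.mod_thm hW
  have hONE : S_ONE := Pool.Agent.TH312.ONE.one_thm
    (Pool.Agent.TH986.SUM.sum_thm (Pool.Agent.TH73.LS4.ls4_thm hDUAL hW))
  have hTP : S_TP := Pool.Agent.TH209.TP.tp_thm Pool.Agent.TH902.T2.t2_thm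
    (Pool.Agent.TH228.T4.t4_thm Pool.Agent.TH400.E4.e4_thm hONE)
  have hKER := Pool.Agent.N832.LSP.ker_
  have hCONV := Pool.Agent.N7.LSP.conv_
  have hONEP := Pool.Agent.N563.LSP.onep_ Pool.Agent.N34.LSP.marc_ Pool.Agent.N907.LSP.pts_
    (Pool.Agent.N499.LSP.supb_ hKER hCONV) (Pool.Agent.N286.LSP.l4b_ hONE hKER hCONV)
  have hEM := Pool.Agent.N93.LSP.em_ (Pool.Agent.N574.LSP.e1_ Pool.Agent.N43.LSP.hlp_)
  exact ⟨hTP, Pool.Agent.N952.LSP.tpp_ hEM hONEP⟩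

open Pool.Agent.TH280.LS in
/-- the estimate for a class of slices with the Hardy-Littlewood inequality -/
theorem est {m : ℕ} (hm : 1 ≤ m) {p s Λ : ℝ} (hp : 2 ≤ p) (hs : 0 < s)
    (hs2 : 1 / 2 - 2 / p < s) (hΛ : 0 < Λ) (P : ((Fin m → ℝ) → ℂ) → Prop)
    (hP : ∀ g, Integrable g → P g → HardyLittlewood p Λ g) : Estimate s p (Slices P) := by
  have hone : OneD m s p (Pool.Agent.N563.LSP.HCls m P) :=
    Pool.Agent.N563.LSP.hcls_one steps.1 steps.2 hm hp hs hs2 hΛ hP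
  obtain ⟨C, hC, h⟩ := wv_all m s p (Pool.Agent.N563.LSP.HCls m P) hone hs hp
  refine ⟨C, hC, ?_⟩
  intro f₀ f₁ h0 h1 hc0 hc1 τ hτ hτ1 hcase
  have hneg : -s / 2 = -(s / 2) := by ring
  have key := h f₀ f₁ h0 h1 hc0 hc1 τ hτ hτ1 (by
    unfold bessel at hcase
    rw [hneg] at hcase
    exact hcase)
  have hw : ∀ t z, wave s τ f₀ f₁ t z = wv (m + 1) s τ f₀ f₁ t z := by
    intro t z
    unfold wave wv bessel e
    rw [hneg]
  simp only [hw]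
  exact key

/-- **Local smoothing for all exponents.** -/
theorem result (m : ℕ) (hm : 1 ≤ m) (p s : ℝ) (hp : 2 ≤ p) (hs : 0 < s)
    (hs2 : 1 / 2 - 2 / p < s) :
    (∀ (Λ : ℝ) (P : ((Fin m → ℝ) → ℂ) → Prop), 0 < Λ →
      (∀ g, Integrable g → P g → HardyLittlewood p Λ g) → Estimate s p (Slices P)) ∧
    (∀ k : ℕ, Estimate s p (Slices (MonotoneProduct (m := m) k))) ∧
    ∀ (N : ℕ) (a Λ : ℝ), 1 - 1 / p < a → a ≤ 1 → 0 ≤ Λ →
      Estimate s p (Slices (Dominated (m := m) N a Λ)) := by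
  refine ⟨fun Λ P hΛ hP => est hm hp hs hs2 hΛ P hP, ?_, ?_⟩
  · intro k
    obtain ⟨C, hC, h⟩ := Pool.Agent.TH807.CL.cl_thm Pool.Agent.TH89.F.f_thm m k p hp
    refine est hm hp hs hs2 hC _ ?_
    rintro g hg ⟨b, F, hF, hgF⟩
    have he : g = fun y => b * ∏ i, ((F i (y i) : ℝ) : ℂ) := funext hgF
    rw [he] at hg ⊢
    exact h b F hF hg
  · intro N a Λ ha ha1 hΛ
    obtain ⟨C, hC, h⟩ := Pool.Agent.R462.HS.dom_slice m N (by linarith : 1 < p) ha ha1 hΛ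
    refine est hm hp hs hs2 hC _ ?_
    intro g hg hc
    exact h g hg hc

end Pool.Agent.Results.MP_ee74d2_an.AllExponents
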