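import Pool.Agent.N303.LS.Fin2
import Pool.Agent.N545.LS.SQ
import Pool.Agent.N558.LS.MUL
import Pool.Agent.N413.LS.BES
import Pool.Agent.N362.LS.ENA
import Pool.Agent.N914.LS.ENB
import Pool.Agent.N655.LS.EN
import Pool.Agent.N27.LS.PEE
import Pool.Agent.N933.LS.YH
import Pool.Agent.N169.LS.Khi
import Pool.Agent.N707.LS.CAR
import Pool.Agent.N492.LS.Ort

set_option autoImplicit false

/-!
# Local smoothing after random signs on groups of unit frequency cubes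

Let `ψ_m(D)` be the localisation to the unit cube around `m ∈ ℤ^d` in frequency space, with symbol
`K^(ξ - m)`, where `K` is a compactly supported smooth function. (If `K` is supported in the ball of
radius `1/2` and `K(0) = 1`, then `∑_m K^(ξ - m) = 1` for all `ξ` by Poisson's summation formula.)
Let `A_i` be disjoint finite sets of lattice points with at most `V` elements each, in arbitrary
position, and `ψ_i = ∑_{m ∈ A_i} ψ_m`. For the solution `u_ε` of the wave equation whose data are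
those of `u` with random signs, `∑_i ε_i ψ_i(D) u₀`, `∑_i ε_i ψ_i(D) u₁`, and for all `p ≥ 2`,
`0 ≤ t ≤ 2`, in every dimension,

* `E_ε ‖u_ε(t)‖_p^p ≤ C V^(p/2-1) (‖u₀‖_p^p + ‖g₀‖_p^p + ∑_j ‖g_j‖_p^p)` if
  `u₁ = g₀ + ∑_j ∂_j g_j`, so the right side is `‖u₀‖_{L^p} + ‖u₁‖_{W^{-1,p}}`;
* `E_ε ‖u_ε(t)‖_p^p ≤ C V^(p/2-1) (‖u₀‖_{L^p_s}^p + ‖u₁‖_{L^p_{s-1}}^p)` for every `s > 0`.

The constant depends on `d, p, K` (and `s`), not on the family, on `V`, on `t` or on the data.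

The right side of Q1 has `s = s_p - σ`, and `s_p - σ > s_p - 1/p ≥ 0` for `p ≥ 2d/(d-1)` and
`σ < 1/p`. So for `V = 1` this is the estimate of Q1, for all `d`, all `p ≥ 2d/(d-1)` and all
`σ < 1/p`, in the mean over independent signs on the unit frequency cubes, for every datum. The
deterministic estimate is the case of one group. On frequencies `|ξ| ~ R` the loss allowed by Q1 is
`R^((d-1)/2 - d/p)`, so `V` may be a power `R^(d - 1 - 2/(p-2))`, which is a positive power of `R`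
for every `p > 2d/(d-1)`.

Proof: the square function `(∑_i |ψ_i(D) u(t)|²)^(1/2)` is bounded on `L^p`. The energy of the
solution in unit balls is controlled by that of the data (weighted energy estimate), for fixed `t`
the pieces are almost orthogonal in unit balls, and `∑_i |ψ_i(D) u(t, x)|²` is at most `C V` times
the local energy at `x`; the weight is slowly varying.

Co-authors of the parts: helper27, helper169, helper362, helper413, helper492, helper545,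
helper558, helper655, helper707, helper914, helper933.
-/

open MeasureTheory
open scoped ENNReal FourierTransform RealInnerProductSpace SchwartzMap

namespace Pool.Agent.Results.MP_ee74d2_an.RandomFrequencyGroups

/-- `ℝ^d` -/
abbrev E (d : ℕ) : Type := EuclideanSpace ℝ (Fin d)

/-- The inverse Fourier transform `∫ exp(2πi x·ξ) F(ξ) dξ`. -/
noncomputable def inv {d : ℕ} (F : E d → ℂ) (x : E d) : ℂ :=
  ∫ ξ : E d, Complex.exp (((2 * Real.pi * ⟪x, ξ⟫ : ℝ) : ℂ) * Complex.I) * F ξ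

/-- The solution `u(t, x)` of the wave equation on `ℝ^d` for which `F₀`, `F₁` are the Fourier
transforms of `u(0)` and `∂ₜu(0)`: the inverse Fourier transform of
`cos(2πt|ξ|) F₀(ξ) + sin(2πt|ξ|)/(2π|ξ|) F₁(ξ)`. -/
noncomputable def wave {d : ℕ} (F₀ F₁ : E d → ℂ) (t : ℝ) (x : E d) : ℂ :=
  inv (fun ξ => ((Real.cos (2 * Real.pi * t * ‖ξ‖) : ℝ) : ℂ) * F₀ ξ +
    ((Real.sin (2 * Real.pi * t * ‖ξ‖) / (2 * Real.pi * ‖ξ‖) : ℝ) : ℂ) * F₁ ξ) x

/-- The symbol `(1 + 4π²|ξ|²)^(a/2)` of `(I - Δ)^(a/2)`. -/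
noncomputable def bessel {d : ℕ} (a : ℝ) (ξ : E d) : ℂ :=
  (((1 + 4 * Real.pi ^ 2 * ‖ξ‖ ^ 2) ^ (a / 2) : ℝ) : ℂ)

/-- `‖f‖^p` for the norm of `L^p_a`: the integral of `|(I - Δ)^(a/2) f|^p`. -/
noncomputable def sobolev {d : ℕ} (a p : ℝ) (f : 𝓢(E d, ℂ)) : ℝ≥0∞ :=
  ∫⁻ x : E d, ‖inv (fun ξ => bessel a ξ * 𝓕 (f : E d → ℂ) ξ) x‖ₑ ^ p

/-- The symbol `∑_{m ∈ A} K^(ξ - m)` of a group `A` of unit frequency cubes. -/
noncomputable def psi {d : ℕ} (K : 𝓢(E d, ℂ)) (A : Finset (Fin d → ℤ)) (ξ : E d) : ℂ :=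
  ∑ m ∈ A, 𝓕 (K : E d → ℂ) (ξ - WithLp.toLp 2 fun i => (m i : ℝ))

/-- The symbol `∑_i ε_i ψ_{A_i}(ξ)`, where `ε_i = 1` if `ε i` is true and `ε_i = -1` otherwise. -/
noncomputable def rnd {d : ℕ} {ι : Type} [Fintype ι] (K : 𝓢(E d, ℂ)) (A : ι → Finset (Fin d → ℤ))
    (ε : ι → Bool) (ξ : E d) : ℂ :=
  ∑ i, (if ε i then psi K (A i) ξ else - psi K (A i) ξ)

/-- The mean, over all `2^|ι|` choices of the signs, of the integral of `|u_ε(t, x)|^p` over `x`,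
where `u_ε` is the solution with data `∑_i ε_i ψ_{A_i}(D) u₀` and `∑_i ε_i ψ_{A_i}(D) u₁`. -/
noncomputable def mean {d : ℕ} {ι : Type} [Fintype ι] [DecidableEq ι] (p : ℝ) (K : 𝓢(E d, ℂ))
    (A : ι → Finset (Fin d → ℤ)) (u₀ u₁ : 𝓢(E d, ℂ)) (t : ℝ) : ℝ≥0∞ :=
  (∑ ε : ι → Bool, ∫⁻ x : E d, ‖wave (fun ξ => rnd K A ε ξ * 𝓕 (u₀ : E d → ℂ) ξ)
    (fun ξ => rnd K A ε ξ * 𝓕 (u₁ : E d → ℂ) ξ) t x‖ₑ ^ p) / 2 ^ Fintype.card ι

/-- **Fixed-time estimates without loss of derivatives, hence the estimate of Q1, for data with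
random signs on groups of unit frequency cubes.** -/
theorem result (d : ℕ) (p : ℝ) (hp : 2 ≤ p) (K : 𝓢(E d, ℂ)) (hK : HasCompactSupport K) :
    (∃ C : ℝ, 0 < C ∧ ∀ (ι : Type) [Fintype ι] [DecidableEq ι] (A : ι → Finset (Fin d → ℤ)) (V : ℕ),
      (∀ i j, i ≠ j → Disjoint (A i) (A j)) → (∀ i, (A i).card ≤ V) →
      ∀ (u₀ u₁ g₀ : 𝓢(E d, ℂ)) (g : Fin d → 𝓢(E d, ℂ)),
      (∀ x, u₁ x = g₀ x + ∑ j, lineDeriv ℝ (g j) x (EuclideanSpace.single j (1 : ℝ))) →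
      ∀ t : ℝ, 0 ≤ t → t ≤ 2 →
        mean p K A u₀ u₁ t ≤ ENNReal.ofReal (C * (V : ℝ) ^ (p / 2 - 1)) *
          ((∫⁻ x : E d, ‖u₀ x‖ₑ ^ p) + (∫⁻ x : E d, ‖g₀ x‖ₑ ^ p) +
            ∑ j, ∫⁻ x : E d, ‖g j x‖ₑ ^ p)) ∧
    ∀ s : ℝ, 0 < s → ∃ C : ℝ, 0 < C ∧ ∀ (ι : Type) [Fintype ι] [DecidableEq ι]
      (A : ι → Finset (Fin d → ℤ)) (V : ℕ),
      (∀ i j, i ≠ j → Disjoint (A i) (A j)) → (∀ i, (A i).card ≤ V) →
      ∀ (u₀ u₁ : 𝓢(E d, ℂ)) (t : ℝ), 0 ≤ t → t ≤ 2 →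
        mean p K A u₀ u₁ t ≤ ENNReal.ofReal (C * (V : ℝ) ^ (p / 2 - 1)) *
          (sobolev s p u₀ + sobolev (s - 1) p u₁) := by
  have hSQ : Pool.Agent.N303.LS.S_SQ :=
    Pool.Agent.N303.LS.t_sq
      (Pool.Agent.N655.LS.t_en Pool.Agent.N362.LS.t_ena Pool.Agent.N303.LS.t_enb)
      Pool.Agent.N492.LS.t_ort Pool.Agent.N707.LSCAR.t_car Pool.Agent.N27.LS.t_pee
      Pool.Agent.N933.LS.t_yh
  have hKHI := Pool.Agent.N169.LS.t_khi
  have hBP := Pool.Agent.N303.LS.bp Pool.Agent.N558.LS.t_mul Pool.Agent.N413.LSBES.t_bes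
  exact ⟨Pool.Agent.N303.LS.fin hSQ hKHI d p hp K hK,
    fun s hs => Pool.Agent.N303.LS.fin2 hBP hSQ hKHI d p s hp hs K hK⟩

end Pool.Agent.Results.MP_ee74d2_an.RandomFrequencyGroups
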