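import Pool.Agent.N303.LS.Fin3
import Pool.Agent.N545.LS.SQ
import Pool.Agent.N558.LS.MUL
import Pool.Agent.N413.LS.BES
import Pool.Agent.N362.LS.ENA
import Pool.Agent.N914.LS.ENB
import Pool.Agent.N655.LS.EN
import Pool.Agent.N169.LS.Khi
import Pool.Agent.N707.LS.CAR
import Pool.Agent.N234.LS.DT
import Pool.Agent.N94.LS.SOB
import Pool.Agent.N931.LM.MAX
import Pool.Agent.N287.LS.YOU
import Pool.Agent.N951.LS.HN
import Pool.Agent.N400.LM.HRR
import Pool.Agent.N322.LS.HRH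

set_option autoImplicit false

/-!
# The maximal function in time of the wave after random signs on groups of frequency cubes

Let `ψ_m(D)` be the localisation to the unit cube around `m ∈ ℤ^d` in frequency space, with symbol
`K^(ξ - m)`, where `K` is a compactly supported smooth function, `A_i` disjoint finite sets of
lattice points with at most `V` elements each, `ψ_i = ∑_{m ∈ A_i} ψ_m`. For the solution `u_ε` of
the wave equation with the data `∑_i ε_i ψ_i(D) u₀`, `∑_i ε_i ψ_i(D) u₁`, for all `p ≥ 2`, all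
`s > 0` and in every dimension `d ≥ 1`,

`E_ε ∫ sup_{0 ≤ t ≤ 2} |u_ε(t, x)|^p dx ≤ C V^(p/2) (‖u₀‖_{L^p_s}^p + ‖u₁‖_{L^p_{s-1}}^p)`,

with a constant which depends on `d, p, s, K` only. The estimate of Q1 has the mean over `t ∈ [1, 2]`
in place of the supremum over `t` and `s = s_p - σ`, which is positive for `p ≥ 2d/(d-1)` and
`σ < 1/p`. So for `V = 1`, for random signs on the unit frequency cubes, the estimate of Q1 holds
with the maximal function in time in place of the mean in time, for every datum, for all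
`p ≥ 2d/(d-1)` and all `σ < s_p`, in particular `σ < 1/p`.

Proof: for fixed `x` the signed sum is a random function of `t` whose second moments are at most
`C V` times the local energy at `x` (weighted energy estimate and Bessel's inequality), uniformly in
`t`; Khintchine's inequality with a large exponent `q > 1/s`, Sobolev's inequality in `t`, which
costs `1/q` derivatives, and the representation of Bessel potentials by the heat flow, which
regains them.

Co-authors of the parts: helper94, helper169, helper234, helper287, helper322,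
helper362, helper400, helper413, helper545, helper558, helper655, helper707, helper914, helper931,
helper951.
-/

open MeasureTheory
open scoped ENNReal FourierTransform RealInnerProductSpace SchwartzMap

namespace Pool.Agent.Results.MP_ee74d2_an.RandomWaveMaximal

/-- `ℝ^d` -/
abbrev E (d : ℕ) : Type := EuclideanSpace ℝ (Fin d)

/-- The inverse Fourier transform `∫ exp(2πi x·ξ) F(ξ) dξ`. -/
noncomputable def inv {d : ℕ} (F : E d → ℂ) (x : E d) : ℂ :=
  ∫ ξ : E d, Complex.exp (((2 * Real.pi * ⟪x, ξ⟫ : ℝ) : ℂ) * Complex.I) * F ξ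

/-- The solution `u(t, x)` of the wave equation on `ℝ^d` for which `F₀`, `F₁` are the Fourier
transforms of `u(0)` and `∂ₜu(0)`: the inverse Fourier transform of
`cos(2πt|ξ|) F₀(ξ) + sin(2πt|ξ|)/(2π|ξ|) F₁(ξ)`. -/
noncomputable def wave {d : ℕ} (F₀ F₁ : E d → ℂ) (t : ℝ) (x : E d) : ℂ :=
  inv (fun ξ => ((Real.cos (2 * Real.pi * t * ‖ξ‖) : ℝ) : ℂ) * F₀ ξ +
    ((Real.sin (2 * Real.pi * t * ‖ξ‖) / (2 * Real.pi * ‖ξ‖) : ℝ) : ℂ) * F₁ ξ) x

/-- The symbol `(1 + 4π²|ξ|²)^(a/2)` of `(I - Δ)^(a/2)`. -/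
noncomputable def bessel {d : ℕ} (a : ℝ) (ξ : E d) : ℂ :=
  (((1 + 4 * Real.pi ^ 2 * ‖ξ‖ ^ 2) ^ (a / 2) : ℝ) : ℂ)

/-- `‖f‖^p` for the norm of `L^p_a`: the integral of `|(I - Δ)^(a/2) f|^p`. -/
noncomputable def sobolev {d : ℕ} (a p : ℝ) (f : 𝓢(E d, ℂ)) : ℝ≥0∞ :=
  ∫⁻ x : E d, ‖inv (fun ξ => bessel a ξ * 𝓕 (f : E d → ℂ) ξ) x‖ₑ ^ p

/-- The symbol `∑_{m ∈ A} K^(ξ - m)` of a group `A` of unit frequency cubes. -/
noncomputable def psi {d : ℕ} (K : 𝓢(E d, ℂ)) (A : Finset (Fin d → ℤ)) (ξ : E d) : ℂ :=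
  ∑ m ∈ A, 𝓕 (K : E d → ℂ) (ξ - WithLp.toLp 2 fun i => (m i : ℝ))

/-- The symbol `∑_i ε_i ψ_{A_i}(ξ)`, where `ε_i = 1` if `ε i` is true and `ε_i = -1` otherwise. -/
noncomputable def rnd {d : ℕ} {ι : Type} [Fintype ι] (K : 𝓢(E d, ℂ)) (A : ι → Finset (Fin d → ℤ))
    (ε : ι → Bool) (ξ : E d) : ℂ :=
  ∑ i, (if ε i then psi K (A i) ξ else - psi K (A i) ξ)

/-- The mean, over all `2^|ι|` choices of the signs, of the integral over `x` of the `p`-th power of
`sup_{0 ≤ t ≤ 2} |u_ε(t, x)|`, where `u_ε` is the solution with data `∑_i ε_i ψ_{A_i}(D) u₀` and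
`∑_i ε_i ψ_{A_i}(D) u₁`. -/
noncomputable def meanMax {d : ℕ} {ι : Type} [Fintype ι] [DecidableEq ι] (p : ℝ) (K : 𝓢(E d, ℂ))
    (A : ι → Finset (Fin d → ℤ)) (u₀ u₁ : 𝓢(E d, ℂ)) : ℝ≥0∞ :=
  (∑ ε : ι → Bool, ∫⁻ x : E d, (⨆ t ∈ Set.Icc (0 : ℝ) 2,
    ‖wave (fun ξ => rnd K A ε ξ * 𝓕 (u₀ : E d → ℂ) ξ)
      (fun ξ => rnd K A ε ξ * 𝓕 (u₁ : E d → ℂ) ξ) t x‖ₑ) ^ p) / 2 ^ Fintype.card ι

/-- **The maximal function in time for data with random signs on groups of frequency cubes.** -/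
theorem result (d : ℕ) (hd : 0 < d) (p s : ℝ) (hp : 2 ≤ p) (hs : 0 < s) (K : 𝓢(E d, ℂ))
    (hK : HasCompactSupport K) :
    ∃ C : ℝ, 0 < C ∧ ∀ (ι : Type) [Fintype ι] [DecidableEq ι] (A : ι → Finset (Fin d → ℤ)) (V : ℕ),
      (∀ i j, i ≠ j → Disjoint (A i) (A j)) → (∀ i, (A i).card ≤ V) →
      ∀ u₀ u₁ : 𝓢(E d, ℂ),
        meanMax p K A u₀ u₁ ≤ ENNReal.ofReal (C * (V : ℝ) ^ (p / 2)) *
          (sobolev s p u₀ + sobolev (s - 1) p u₁) := by
  have hEN := Pool.Agent.N655.LS.t_en Pool.Agent.N362.LS.t_ena Pool.Agent.N303.LS.t_enb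
  have hMAX := Pool.Agent.N303.LS.t_max Pool.Agent.N234.LS.t_dt Pool.Agent.N94.LS.t_sob Pool.Agent.N169.LS.t_khi
    Pool.Agent.N707.LSCAR.t_car hEN
  have hHR := Pool.Agent.N303.LS.t_hrh hMAX Pool.Agent.N951.LS.t_hn Pool.Agent.N400.LM.t_hrr
  exact Pool.Agent.N303.LS.fin3 hHR Pool.Agent.N287.LS.t_you d hd p s hp hs K hK

end Pool.Agent.Results.MP_ee74d2_an.RandomWaveMaximal
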