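import Pool.Agent.N303.LS.Fin7
import Pool.Agent.N441.LS.LPA
import Pool.Agent.N297.LS.Lpk
import Pool.Agent.N558.LS.MUL
import Pool.Agent.N413.LS.BES
import Pool.Agent.N764.LS.PD
import Pool.Agent.N562.LS.BW
import Pool.Agent.N170.LS.LLG
import Pool.Agent.N362.LS.ENA
import Pool.Agent.N914.LS.ENB
import Pool.Agent.N655.LS.EN
import Pool.Agent.N287.LS.YOU

set_option autoImplicit false

/-!
# The estimate of Q1 for all data with sparse spectrum

Let `p ≥ 2`, `0 ≤ θ < s`, `θ < 2`, and let `S ⊂ ℤ^d` be a set such that for all `R ≥ 1` the set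
`S ∩ (-R, R)^d` is a `Λ(p)` set with constant at most `A R^θ`: the `L^p` norm on the torus of a
trigonometric polynomial with frequencies in `S ∩ (-R, R)^d` is at most `A R^θ` times its `L²` norm.
For all Schwartz data whose Fourier transforms are supported in `S + [-1/4, 1/4]^d` and for
`0 ≤ t ≤ 2`,

`‖u(t)‖_p^p ≤ C A^p (‖u₀‖_{L^p_s}^p + ‖u₁‖_{L^p_{s-1}}^p)`

with a constant `C` which depends on `d, p, θ, s` only. For `s = s_p - σ` this is the estimate of Q1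
(even at each fixed time). Since `s_p - σ > s_p - 1/p = (d-1)/2 - d/p`, it holds for all `σ < 1/p` if
`θ ≤ (d-1)/2 - d/p` (and `θ < 2`, which is no restriction for `p < 2(d+1)/(d-1)`, where
`(d-1)/2 - d/p < 1/2`).

Examples (not used below): a set with at most `A R^κ` points in `(-R, R)^d` satisfies the hypothesis
with `θ = κ (1/2 - 1/p)`, so Q1 holds for all data with spectrum in `S + [-1/4, 1/4]^d` for every
set `S` with `κ ≤ d - 1 - 2/(p-2)`, which is a positive exponent for every `p > 2d/(d-1)`; all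
`Λ(p)` sets (`θ = 0`), for instance the sets `B_h` for `p = 2h`; the lattice points of paraboloids
(decoupling).

Proof: in a unit ball around `z` the function `u(t)` is a superposition of modulations of
trigonometric polynomials with frequencies in `S` whose coefficients have an `ℓ²` norm which is at
most the square root of the local energy of `u(t)` at `z` (Bessel's inequality). So its `L^p` norm
in the ball is at most the `Λ(p)` constant times this, and the local energy of `u(t)` is at most a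
constant times that of the data (weighted energy estimate). Young's inequality, and summation over
the dyadic shells, on which the Bessel potentials gain `2^(-ks)` (heat flow).

Co-authors of the parts: helper170, helper262, helper287, helper297, helper362, helper413, helper441,
helper492, helper558, helper562, helper655, helper764, helper914.
-/

open MeasureTheory
open scoped ENNReal FourierTransform RealInnerProductSpace SchwartzMap

namespace Pool.Agent.Results.MP_ee74d2_an.SparseSpectra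

/-- `ℝ^d` -/
abbrev E (d : ℕ) : Type := EuclideanSpace ℝ (Fin d)

/-- The inverse Fourier transform `∫ exp(2πi x·ξ) F(ξ) dξ`. -/
noncomputable def inv {d : ℕ} (F : E d → ℂ) (x : E d) : ℂ :=
  ∫ ξ : E d, Complex.exp (((2 * Real.pi * ⟪x, ξ⟫ : ℝ) : ℂ) * Complex.I) * F ξ

/-- The solution `u(t, x)` of the wave equation on `ℝ^d` with `u(0) = u₀`, `∂ₜu(0) = u₁`: the
inverse Fourier transform of `cos(2πt|ξ|) u₀^(ξ) + sin(2πt|ξ|)/(2π|ξ|) u₁^(ξ)`. -/
noncomputable def wave {d : ℕ} (u₀ u₁ : 𝓢(E d, ℂ)) (t : ℝ) (x : E d) : ℂ :=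
  inv (fun ξ => ((Real.cos (2 * Real.pi * t * ‖ξ‖) : ℝ) : ℂ) * 𝓕 (u₀ : E d → ℂ) ξ +
    ((Real.sin (2 * Real.pi * t * ‖ξ‖) / (2 * Real.pi * ‖ξ‖) : ℝ) : ℂ) * 𝓕 (u₁ : E d → ℂ) ξ) x

/-- The symbol `(1 + 4π²|ξ|²)^(a/2)` of `(I - Δ)^(a/2)`. -/
noncomputable def bessel {d : ℕ} (a : ℝ) (ξ : E d) : ℂ :=
  (((1 + 4 * Real.pi ^ 2 * ‖ξ‖ ^ 2) ^ (a / 2) : ℝ) : ℂ)

/-- `‖f‖^p` for the norm of `L^p_a`: the integral of `|(I - Δ)^(a/2) f|^p`. -/
noncomputable def sobolev {d : ℕ} (a p : ℝ) (f : 𝓢(E d, ℂ)) : ℝ≥0∞ :=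
  ∫⁻ x : E d, ‖inv (fun ξ => bessel a ξ * 𝓕 (f : E d → ℂ) ξ) x‖ₑ ^ p

/-- `S` is a `Λ(p)` set with constant `Λ`: for all finite subsets `T` of `S` and all coefficients,
`∫_{[0,1)^d} |∑_{m ∈ T} c_m exp(2πi x·m)|^p dx ≤ Λ^p (∑_{m ∈ T} |c_m|²)^(p/2)`. -/
def IsLambdaSet {d : ℕ} (p Λ : ℝ) (S : Set (Fin d → ℤ)) : Prop :=
  ∀ T : Finset (Fin d → ℤ), (T : Set (Fin d → ℤ)) ⊆ S → ∀ c : (Fin d → ℤ) → ℂ,
    ∫⁻ x in {x : E d | ∀ i, x i ∈ Set.Ico (0 : ℝ) 1}, ‖∑ m ∈ T, c m *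
      Complex.exp (((2 * Real.pi * ⟪x, WithLp.toLp 2 fun i => (m i : ℝ)⟫ : ℝ) : ℂ) *
        Complex.I)‖ₑ ^ p ≤
      ENNReal.ofReal (Λ ^ p) * (∑ m ∈ T, ‖c m‖ₑ ^ (2 : ℝ)) ^ (p / 2)

/-- The Fourier transform of `f` vanishes outside `S + [-1/4, 1/4]^d`. -/
def SpectrumNear {d : ℕ} (S : Set (Fin d → ℤ)) (f : 𝓢(E d, ℂ)) : Prop :=
  ∀ ξ : E d, 𝓕 (f : E d → ℂ) ξ ≠ 0 → ∃ m ∈ S, ∀ i, |ξ i - m i| ≤ 1 / 4

/-- **The estimate of Q1, at each fixed time, for all data with spectrum near a set whose parts in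
cubes of side `2R` are `Λ(p)` sets with constants `A R^θ`, `θ < s = s_p - σ`.** -/
theorem result (d : ℕ) (p θ s : ℝ) (hp : 2 ≤ p) (hθ : 0 ≤ θ) (hθ2 : θ < 2) (hs : θ < s) :
    ∃ C : ℝ, 0 < C ∧ ∀ (S : Set (Fin d → ℤ)) (A : ℝ), 0 ≤ A →
      (∀ R : ℕ, 1 ≤ R → IsLambdaSet p (A * (R : ℝ) ^ θ) {m | m ∈ S ∧ ∀ i, |m i| < R}) →
      ∀ u₀ u₁ : 𝓢(E d, ℂ), SpectrumNear S u₀ → SpectrumNear S u₁ → ∀ t : ℝ, 0 ≤ t → t ≤ 2 →
        ∫⁻ x : E d, ‖wave u₀ u₁ t x‖ₑ ^ p ≤ ENNReal.ofReal (C * A ^ p) *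
          (sobolev s p u₀ + sobolev (s - 1) p u₁) := by
  have hEN := Pool.Agent.N655.LS.t_en Pool.Agent.N362.LS.t_ena Pool.Agent.N303.LS.t_enb
  have hLLG := Pool.Agent.N170.LS.t_llg Pool.Agent.N764.LS.PD.t_pd Pool.Agent.N562.LS.t_bw
  have hBP := Pool.Agent.N303.LS.bp Pool.Agent.N558.LS.t_mul Pool.Agent.N413.LSBES.t_bes
  have hLPK := Pool.Agent.N297.LPK.t_lpk (Pool.Agent.N441.LS.t_lpa Pool.Agent.N558.LS.t_mul)
  exact Pool.Agent.N303.LS.fin6 hLLG hEN Pool.Agent.N287.LS.t_you hLPK hBP d p θ s hp hθ hθ2 hs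

end Pool.Agent.Results.MP_ee74d2_an.SparseSpectra
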